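import Pool.Agent.W822.ResVar

/-!
# MP_eba68f_pr, Q1: the variance exponent of first-passage percolation depends on the direction

On `ℤ²` there is a law `F` on `(0, ∞)` (two atoms) for which all passage times are square
integrable, the variance exponent vanishes in the direction `(1,1)/√2` and is at least `1/50` in
another direction.
-/

set_option autoImplicit false

open MeasureTheory ProbabilityTheory

namespace Pool.Agent.Results.MP_eba68f_pr.VarianceExponentDepends

open Pool.Agent.W822.FPP

/-- The variance fluctuation exponent of first-passage percolation on `ℤ²` depends on the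
direction. -/
theorem result : ∃ F : Measure ℝ, IsProbabilityMeasure F ∧ F (Set.Iic 0) = 0 ∧
    (∀ γ : ℝ, Integrable (fun t => Real.exp (γ * t)) F) ∧
    Integrable (fun t => t ^ 2) F ∧
    (∀ v : V, MemLp (fun τ => passage τ 0 v) 2 (law F)) ∧
    chiVar F (Real.sqrt 2 / 2, Real.sqrt 2 / 2) = 0 ∧
    ∃ y : ℝ × ℝ, y.1 ^ 2 + y.2 ^ 2 = 1 ∧ ((1 / 50 : ℝ) : EReal) ≤ chiVar F y := by
  obtain ⟨a, ha, hstrict⟩ := exists_strict
  obtain ⟨y, hy⟩ := exists_dir (a := a)
  refine ⟨Fa a, inferInstance, ?_, fun γ => integrable_Fa a (by fun_prop),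
    integrable_Fa a (by fun_prop), fun v => ?_, chiVar_dg ha, y, hy.1, chiVar_min ha hstrict hy⟩
  · apply Fa_null a measurableSet_Iic
    · simp
    · simp only [Set.mem_Iic, not_le]; linarith
  · have hp : IsProbabilityMeasure (law (Fa a)) := by unfold law; infer_instance
    refine MemLp.of_bound (meas_passage 0 v).aestronglyMeasurable ((1 + a) * nrm (v - 0)) ?_
    filter_upwards [ae_Bd ha.le] with τ hτ
    have h1 := le_passage hτ 0 v
    have h2 := passage_le hτ 0 v
    have h3 : (0 : ℝ) ≤ (nrm (v - 0) : ℝ) := by
      have := nrm_nonneg (v - 0)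
      exact_mod_cast this
    rw [Real.norm_eq_abs, abs_of_nonneg (h3.trans h1)]
    exact h2

end Pool.Agent.Results.MP_eba68f_pr.VarianceExponentDepends
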